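import Pool.Agent.W_448e_h22.WeC
import Pool.Agent.W_448j6_h22.KbK

/-!
MP_448cb3_co, G2, case B, STEP 0 at the level 13: the rows with three sites and a defect: the
functional of the window `j` pays for the joins.  helper22.
-/

set_option autoImplicit false

namespace Pool.Agent.GaussPoset.EK

set_option linter.unusedSectionVars false

open Finset Win St Polynomial Wd Win.W4

universe u

variable {P : Type u} [Fintype P] [PartialOrder P] [DecidableEq P] {r i j : ℕ}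

variable {x : ℕ → P} {c : ℕ → ℤ} {β : ℤ} {t : Tops P}

variable {K : Finset P} {psi : P → P} {Y V : P → P}

lemma TT_eq (j : ℕ) (t : Tops P) :
    TT j t = Pn.F2 j t + Pn.F4 j t + 6 * Pn.F3 j t + 2 * Pn.F6 j t := rfl

/-- THE ROWS WITH THREE SITES AND A DEFECT at the window `j`: every part pays -/
theorem NJ.three_n13 (h : NJ P r (i + 1)) (hi1 : 1 ≤ i) (R : Red P (i + 1) K psi)
    (hY : YV (i + 1) Y V) (B : RowB P (i + 1) t 2 x c β)
    (hd : ¬ (β = 0 ∧ ∀ k, k < 2 → c k = 0)) :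
    16 * (PA (i + 1) K Y V t +
      ∑ z ∈ (PZ (i + 1) K Y V).filter (fun z => topOf (V z) = t), (sz (i + 1) K V z - 1)) ≤
    8 * TT (i + 1) t := by
  classical
  have hA : PA (i + 1) K Y V t = 0 :=
    NJ.PA_zero h (by omega) R hY fun y hy ht => by
      have := B.bad h (by omega) hy ht
      omega
  rw [hA, zero_add, TT_eq]
  have dl : ∀ (x : ℕ → P) (c : ℕ → ℤ) (β : ℤ), RowB P (i + 1) t 2 x c β → β = 0 → c 0 = 1 →
      c 1 = -1 → 16 * ∑ z ∈ (PZ (i + 1) K Y V).filter (fun z => topOf (V z) = t),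
        (sz (i + 1) K V z - 1) ≤ 8 * (Pn.F2 (i + 1) t + Pn.F4 (i + 1) t +
          6 * Pn.F3 (i + 1) t + 2 * Pn.F6 (i + 1) t) := by
    intro x c β B hβ c0 c1
    obtain ⟨g3, g6, g24⟩ := NJ.val_dl2 h (by omega) B hβ c0 c1
    rw [NJ.pc3_zero h (by omega) R hY B (by omega) (by omega) (by omega), g3, g6]
    have : (0 : ℤ) ≤ (pen (x 2)).card := by positivity
    linarith
  have rr : ∀ (x : ℕ → P) (c : ℕ → ℤ) (β : ℤ), RowB P (i + 1) t 2 x c β → β = 1 → c 0 = -1 →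
      c 1 = 0 → 16 * ∑ z ∈ (PZ (i + 1) K Y V).filter (fun z => topOf (V z) = t),
        (sz (i + 1) K V z - 1) ≤ 8 * (Pn.F2 (i + 1) t + Pn.F4 (i + 1) t +
          6 * Pn.F3 (i + 1) t + 2 * Pn.F6 (i + 1) t) := by
    intro x c β B hβ c0 c1
    obtain ⟨g3, g6, g24⟩ := NJ.val_r2 h (by omega) B hβ c0 c1
    rw [NJ.pc3_zero h (by omega) R hY B (by omega) (by omega) (by omega), g3, g6]
    have : (0 : ℤ) ≤ (pen (x 1)).card := by positivity
    linarith
  rcases B.pat with p1 | ⟨-, p1, p2, p3⟩ | ⟨-, p1, p2, p3⟩ | ⟨-, p1, p2, p3, p4⟩ |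
    ⟨-, p1, p2, p3, p4⟩ | p1 | ⟨-, p1, p2, p3⟩ | p1
  · exact absurd p1 hd
  · exact rr _ _ _ B p1 p2 (p3 1 le_rfl (by omega))
  · exact rr _ _ _ B.rev p1 p2 (p3 0 (by omega))
  · exact dl _ _ _ B p1 p2 p3
  · exact dl _ _ _ B.rev p1 p2 p3
  · have := p1.1
    omega
  · subst p1
    obtain ⟨g3, g6, g24⟩ := NJ.val_tri h (by omega) B p2 p3
    rw [g3, g6]
    rcases NJ.pc3_tri h hi1 R hY B p2 p3 with h0 | ⟨p, hp, hpt, h0⟩
    · rw [h0]
      linarith
    · obtain ⟨b1, b2, -, -, -⟩ := Wd.NJ.dt_ch_bd h rfl hi1 hp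
      linarith
  · have := p1.1
    omega

end Pool.Agent.GaussPoset.EK
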