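import Pool.Agent.W_448n13_h22.NtC

/-!
MP_448cb3_co, G2, case B, STEP 0 at the level 13: the natural rows: the functional of the window `j` is
nonnegative.  helper22.
-/

set_option autoImplicit false

namespace Pool.Agent.GaussPoset.EK

set_option linter.unusedSectionVars false

open Finset Win St Polynomial Wd Win.W4

universe u

variable {P : Type u} [Fintype P] [PartialOrder P] [DecidableEq P] {r i j m : ℕ}

variable {x : ℕ → P} {c : ℕ → ℤ} {β : ℤ} {t : Tops P}

/-- NATURAL ROWS at the window `j` -/
theorem NJ.tt_nat (h : NJ P r j) (hj : 2 ≤ j) (B : RowB P j t m x c β) (hb : β = 0)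
    (h0 : ∀ k, k < m → c k = 0) : 0 ≤ TT j t := by
  classical
  obtain ⟨K, psi, R⟩ := exists_red P j
  obtain ⟨Y, V, hY⟩ := exists_YV P j
  have h1 := NJ.own_nat h hj R hY B h0 hb
  have h2 : 0 ≤ PA j K Y V t := by
    unfold PA
    positivity
  have h3 : 0 ≤ PB j K Y V t := by
    unfold PB
    refine sum_nonneg fun z hz => ?_
    have := (mem_PZ.1 (mem_filter.1 hz).1).2.2
    linarith
  linarith

end Pool.Agent.GaussPoset.EK
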