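import Pool.Agent.W_448n13_h16.NtB
import Pool.Agent.W_448n13_h22.NtE
import Pool.Agent.W_448six_h74.SkM

/-!
MP_448cb3_co, G2, case B, STEP 0 at the level 13: the wrappers of the leaves: naturals, three sites, two
stars.  helper22.
-/

namespace Pool.Agent.GaussPoset.EK

set_option linter.unusedSectionVars false

open Finset Win St Polynomial Wd Win.W4

universe u

variable (P : Type u) [Fintype P] [PartialOrder P] [DecidableEq P]

/-- naturals -/
theorem leaf_natT : HNatT P := by
  intro r i t m x c β h13 h B hβ hc
  exact NJ.tt_nat h.nj (by omega) B hβ hc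

/-- three sites -/
theorem leaf_twoT : HTwoT P := by
  intro r i K psi Y V t x c β h13 h R hY B hd
  have h1 := NJ.three_n13 h.nj (by omega) R hY B hd
  have h2 : PC (i + 1) K Y V t =
      ∑ z ∈ (PZ (i + 1) K Y V).filter (fun z => topOf (V z) = t), (sz (i + 1) K V z - 1) := rfl
  rw [← h2] at h1
  linarith

/-- two stars -/
theorem leaf_sixT : HSixT P := by
  intro r i K psi Y V t m x c β lo hi e h13 hC hT h R hY C hS B hp
  exact CB.six13 hC hT h (by omega) (by omega) R hY C hS B hp

end Pool.Agent.GaussPoset.EK
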